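import Pool.Agent.H606R2.MinRank.PolyT
import Pool.Agent.H670R2.ERMem
import Pool.Agent.ER.Dec
import Pool.Agent.ER.Hard
import Pool.Agent.ER.Build

/-!
# Direct sums with an identity matrix
-/

set_option autoImplicit false

namespace Pool.Agent.NPC.Q230MR

open Pool.Agent.NPC Pool.Agent.H606R2.MinRank Matrix

/-- The rank of a direct sum with an identity matrix. -/
theorem rank_sum_one {m k : Type} [Fintype m] [Fintype k] [DecidableEq m] [DecidableEq k]
    (A : Matrix m m ℝ) :
    (fromBlocks A 0 0 (1 : Matrix k k ℝ)).rank = A.rank + Fintype.card k := by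
  have h1 := LinearMap.finrank_range_add_finrank_ker (fromBlocks A 0 0 (1 : Matrix k k ℝ)).mulVecLin
  have h2 := LinearMap.finrank_range_add_finrank_ker A.mulVecLin
  have e : LinearMap.ker (fromBlocks A 0 0 (1 : Matrix k k ℝ)).mulVecLin ≃ₗ[ℝ]
      LinearMap.ker A.mulVecLin :=
    { toFun := fun v => ⟨fun i => v.1 (Sum.inl i), by
        have hv := v.2
        rw [LinearMap.mem_ker, mulVecLin_apply, fromBlocks_mulVec] at hv
        rw [LinearMap.mem_ker, mulVecLin_apply]
        funext i
        have := congrFun hv (Sum.inl i)
        simpa [Function.comp_def] using this⟩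
      map_add' := fun v w => rfl
      map_smul' := fun c v => rfl
      invFun := fun w => ⟨Sum.elim w.1 0, by
        have hw := w.2
        rw [LinearMap.mem_ker, mulVecLin_apply] at hw ⊢
        rw [fromBlocks_mulVec]
        ext i
        cases i with
        | inl i => simpa [Function.comp_def] using congrFun hw i
        | inr i => simp [Function.comp_def]⟩
      left_inv := fun v => by
        ext i
        cases i with
        | inl i => rfl
        | inr i =>
          have hv := v.2
          rw [LinearMap.mem_ker, mulVecLin_apply, fromBlocks_mulVec] at hv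
          have := congrFun hv (Sum.inr i)
          simp [Function.comp_def] at this
          simp [this]
      right_inv := fun w => by
        ext i
        rfl }
  have h3 := e.finrank_eq
  have h4 : Module.finrank ℝ (m ⊕ k → ℝ) = Fintype.card m + Fintype.card k := by
    rw [Module.finrank_fintype_fun_eq_card, Fintype.card_sum]
  have h5 : Module.finrank ℝ (m → ℝ) = Fintype.card m := Module.finrank_fintype_fun_eq_card ℝ
  unfold Matrix.rank
  omega

/-- The rows of the direct sum with an identity matrix of order `k`. -/
def extRows (k : ℕ) (R : List (List Entry)) : List (List Entry) :=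
  R.map (fun r => r ++ List.replicate k c0) ++
    (List.range k).map (fun i => R.map (fun _ => c0) ++
      (List.range k).map (fun j => if i = j then c1 else c0))

/-- The direct sum with an identity matrix of order `k`. -/
def ext (k : ℕ) (M : VarMatrix) : VarMatrix where
  rows := extRows k M.rows
  square := by
    intro r hr
    unfold extRows at hr ⊢
    rw [List.mem_append, List.mem_map, List.mem_map] at hr
    rcases hr with ⟨r, hr, rfl⟩ | ⟨i, hi, rfl⟩
    · simp [M.square r hr]
    · simp

theorem length_ext (k : ℕ) (M : VarMatrix) : (ext k M).rows.length = M.rows.length + k := by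
  simp [ext, extRows]

/-- Entries by position. -/
def gent (R : List (List Entry)) (i j : ℕ) : Entry := (R.getD i []).getD j c0

theorem at_eq (M : VarMatrix) (a : ℕ → ℝ) (i j : Fin M.rows.length) :
    M.at a i j = (gent M.rows i.1 j.1).eval a := by
  unfold VarMatrix.at gent
  rw [of_apply, List.getD_eq_getElem (hn := i.2), List.getD_eq_getElem]

theorem gent_ll {k : ℕ} {R : List (List Entry)} (hR : ∀ r ∈ R, r.length = R.length) {i j : ℕ}
    (hi : i < R.length) (hj : j < R.length) : gent (extRows k R) i j = gent R i j := by
  unfold gent extRows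
  rw [List.getD_append _ _ _ i (by simpa using hi),
    List.getD_eq_getElem (R.map _) [] (by simpa using hi),
    List.getElem_map, List.getD_eq_getElem R _ hi, List.getD_append]
  rw [hR _ (List.getElem_mem _)]
  exact hj

theorem gent_lr {k : ℕ} {R : List (List Entry)} (hR : ∀ r ∈ R, r.length = R.length) {i j : ℕ}
    (hi : i < R.length) (hj : j < k) : gent (extRows k R) i (R.length + j) = c0 := by
  unfold gent extRows
  rw [List.getD_append _ _ _ i (by simpa using hi),
    List.getD_eq_getElem (R.map _) [] (by simpa using hi),
    List.getElem_map, List.getD_append_right _ _ _ _ (by rw [hR _ (List.getElem_mem _)]; omega),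
    hR _ (List.getElem_mem _)]
  simp [List.getD_eq_getElem?_getD, hj]

theorem gent_rl {k : ℕ} {R : List (List Entry)} {i j : ℕ}
    (hi : i < k) (hj : j < R.length) : gent (extRows k R) (R.length + i) j = c0 := by
  unfold gent extRows
  rw [List.getD_append_right _ _ _ (R.length + i) (by simp), List.length_map,
    Nat.add_sub_cancel_left, List.getD_eq_getElem ((List.range k).map _) [] (by simpa using hi),
    List.getElem_map, List.getElem_range,
    List.getD_append _ _ _ _ (by simpa using hj)]
  simp [List.getD_eq_getElem?_getD, hj]

theorem gent_rr {k : ℕ} {R : List (List Entry)} {i j : ℕ}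
    (hi : i < k) (hj : j < k) :
    gent (extRows k R) (R.length + i) (R.length + j) = if i = j then c1 else c0 := by
  unfold gent extRows
  rw [List.getD_append_right _ _ _ (R.length + i) (by simp), List.length_map,
    Nat.add_sub_cancel_left, List.getD_eq_getElem ((List.range k).map _) [] (by simpa using hi),
    List.getElem_map, List.getElem_range,
    List.getD_append_right _ _ _ _ (by simp), List.length_map, Nat.add_sub_cancel_left]
  simp [List.getD_eq_getElem?_getD, hj]

theorem rank_ext (k : ℕ) (M : VarMatrix) (a : ℕ → ℝ) :
    ((ext k M).at a).rank = (M.at a).rank + k := by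
  have hl := length_ext k M
  let e : Fin M.rows.length ⊕ Fin k ≃ Fin (ext k M).rows.length :=
    finSumFinEquiv.trans (finCongr hl.symm)
  have e1 : ∀ i, (e (Sum.inl i)).1 = i.1 := fun i => by simp [e]
  have e2 : ∀ i, (e (Sum.inr i)).1 = M.rows.length + i.1 := fun i => by simp [e]
  have hA : ((ext k M).at a).submatrix e e = fromBlocks (M.at a) 0 0 (1 : Matrix (Fin k) (Fin k) ℝ) := by
    ext i j
    rw [submatrix_apply, at_eq]
    change (gent (extRows k M.rows) _ _).eval a = _
    rcases i with i | i <;> rcases j with j | j
    · rw [e1, e1, gent_ll M.square i.2 j.2, fromBlocks_apply₁₁, at_eq]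
    · rw [e1, e2, gent_lr M.square i.2 j.2, fromBlocks_apply₁₂]
      simp [c0, Entry.eval]
    · rw [e2, e1, gent_rl i.2 j.2, fromBlocks_apply₂₁]
      simp [c0, Entry.eval]
    · rw [e2, e2, gent_rr i.2 j.2, fromBlocks_apply₂₂, Matrix.one_apply]
      by_cases h : i = j
      · simp [h, c1, Entry.eval]
      · rw [if_neg (fun h' => h (Fin.ext h')), if_neg h]
        simp [c0, Entry.eval]
  rw [← Matrix.rank_submatrix ((ext k M).at a) e e, hA, rank_sum_one, Fintype.card_fin]

end Pool.Agent.NPC.Q230MR
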