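import Pool.Agent.Q230.MR.Ext
import Pool.Agent.ER.Rat

/-!
# Minimum rank with a constant bound: hardness and membership
-/

set_option autoImplicit false

namespace Pool.Agent.NPC.Q230MR

open Pool.Agent.NPC Pool.Agent.NPC.ER Matrix
open Pool.Agent.H606R2.MinRank (Entry VarMatrix sysMat matOf gads c0 c1 minRank_le_two
  four_le_minRank)
open Pool.Agent.NPC.H670R2 (conj holds_conj poly_conj poly_tvar poly_tadd poly_tmul poly_eq)

/-- Some substitution gives a matrix of rank at most `r`. -/
def RankLe (r : ℕ) (M : VarMatrix) : Prop := ∃ a : ℕ → ℝ, (M.at a).rank ≤ r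

/-! ### Hardness -/

/-- Translation of elementary constraints. -/
def convC (c : ℕ × ℕ × ℕ × ℕ) : ℕ × ℕ × ℕ × ℕ :=
  (if c.1 = 0 then 2 else if c.1 = 1 then 0 else 1, c.2.1, c.2.2.1, c.2.2.2)

theorem sat_convC (x : ℕ → ℝ) (c : Con) :
    Pool.Agent.H606R2.MinRank.Sat x (convC c.code) ↔ c.Holds x := by
  cases c <;> simp [convC, Con.code, Pool.Agent.H606R2.MinRank.Sat, Con.Holds]

/-- The constraints as quadruples. -/
def convS (S : List Con) : List (ℕ × ℕ × ℕ × ℕ) := S.map fun c => convC c.code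

theorem sat_convS (x : ℕ → ℝ) (S : List Con) :
    (∀ c ∈ convS S, Pool.Agent.H606R2.MinRank.Sat x c) ↔ SysHolds x S := by
  unfold convS SysHolds
  simp only [List.mem_map, forall_exists_index, and_imp, forall_apply_eq_imp_iff₂, sat_convC]

theorem rankLe_ext (r k : ℕ) (M : VarMatrix) : RankLe (r + k) (ext k M) ↔ RankLe r M := by
  unfold RankLe
  constructor
  · rintro ⟨a, ha⟩
    rw [rank_ext] at ha
    exact ⟨a, by omega⟩
  · rintro ⟨a, ha⟩
    refine ⟨a, ?_⟩
    rw [rank_ext]
    omega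

theorem rankLe_sysMat (S : List (ℕ × ℕ × ℕ × ℕ)) :
    RankLe 2 (sysMat S) ↔ ∃ x : ℕ → ℝ, ∀ c ∈ S, Pool.Agent.H606R2.MinRank.Sat x c := by
  constructor
  · rintro ⟨a, ha⟩
    by_contra hcon
    have h4 := four_le_minRank hcon
    have : (sysMat S).minRank ≤ ((sysMat S).at a).rank := Nat.sInf_le ⟨a, rfl⟩
    omega
  · rintro ⟨x, hx⟩
    have h2 := minRank_le_two hx
    have hne : {r | ∃ a : ℕ → ℝ, ((sysMat S).at a).rank = r}.Nonempty := ⟨_, fun _ => 0, rfl⟩
    obtain ⟨a, ha⟩ := Nat.sInf_mem hne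
    exact ⟨a, by rw [ha]; exact h2⟩

/-- The reduction. -/
def redM (k : ℕ) (S : List Con) : VarMatrix := ext k (sysMat (convS S))

theorem redM_iff (k : ℕ) (S : List Con) : Sat S ↔ RankLe (2 + k) (redM k S) := by
  unfold redM
  rw [rankLe_ext, rankLe_sysMat]
  simp only [sat_convS]
  rfl

theorem poly_convS : Poly convS := by
  unfold convS
  refine Poly.map (F := fun (_ : List Con) c => convC c.code) Poly.id ?_
  have h : Poly (fun p : List Con × Con => p.2.code) := (Poly.snd Poly.id : Poly fun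
    p : List Con × Con => p.2)
  exact Poly.pair (Poly.ite (Poly.decide_eq (Poly.fst h) (Poly.const 0)) (Poly.const 2)
    (Poly.ite (Poly.decide_eq (Poly.fst h) (Poly.const 1)) (Poly.const 0) (Poly.const 1)))
    (Poly.snd h)

theorem poly_rows {α : Type} [TEnc α] {f : α → VarMatrix} (h : Poly fun a => (f a).rows) :
    Poly f := h

theorem poly_extRows (k : ℕ) : Poly (extRows k) := by
  unfold extRows
  refine Poly.append ?_ ?_
  · exact Poly.map (F := fun (_ : List (List Entry)) r => r ++ List.replicate k c0) Poly.id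
      (Poly.append (Poly.snd Poly.id) (Poly.const _))
  · refine Poly.map (F := fun (R : List (List Entry)) i => R.map (fun _ => c0) ++
      (List.range k).map (fun j => if i = j then c1 else c0)) (Poly.const _) ?_
    refine Poly.append ?_ ?_
    · exact Poly.map (F := fun (_ : List (List Entry) × ℕ) _ => c0) (Poly.fst Poly.id)
        (Poly.const _)
    · exact Poly.map (F := fun (p : List (List Entry) × ℕ) j => if p.2 = j then c1 else c0)
        (Poly.const _) (Poly.ite (Poly.decide_eq (Poly.snd (Poly.fst Poly.id))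
          (Poly.snd Poly.id)) (Poly.const _) (Poly.const _))

theorem poly_redM (k : ℕ) : Poly (redM k) := by
  refine poly_rows ?_
  exact (poly_extRows k).comp (Pool.Agent.NPC.H606MinRank.poly_rowsOf.comp
    (Poly.flatMap (F := fun _ c => gads c) poly_convS
      (Pool.Agent.NPC.H606MinRank.poly_gads.comp (Poly.snd Poly.id))))

theorem hard (k : ℕ) : ERHard (lang (RankLe (2 + k))) :=
  ERHard.of_sys (poly_redM k) (redM_iff k)

/-! ### Membership -/

/-- The inverse of `Entry.toSum`. -/
def ofSum : ℚ ⊕ ℕ → Entry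
  | Sum.inl q => Entry.const q
  | Sum.inr i => Entry.var i

theorem poly_toEntry {α : Type} [TEnc α] {f : α → Entry} (h : Poly fun a => (f a).toSum) :
    Poly f := h

theorem toSum_ofSum (s : ℚ ⊕ ℕ) : (ofSum s).toSum = s := by cases s <;> rfl

theorem ofSum_toSum (e : Entry) : ofSum e.toSum = e := by cases e <;> rfl

instance : TDec Entry := TDec.of Entry.toSum (fun s => some (ofSum s)) (fun _ => rfl)
  (fun e => by rw [ofSum_toSum]) (fun s e h => by
    rw [← Option.some.inj h, toSum_ofSum])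
  (Poly.some (poly_toEntry (Poly.id.congr fun s => (toSum_ofSum s).symm)))

/-- The test for being square. -/
def sqTest (R : List (List Entry)) : Bool := R.all fun r => decide (r.length = R.length)

theorem sqTest_iff (R : List (List Entry)) : sqTest R = true ↔ ∀ r ∈ R, r.length = R.length := by
  simp [sqTest, List.all_eq_true]

/-- Make a square matrix. -/
def mkSq (R : List (List Entry)) : Option VarMatrix :=
  if h : sqTest R = true then some ⟨R, (sqTest_iff R).1 h⟩ else none

theorem poly_mkSq : Poly mkSq := by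
  have h1 : Poly sqTest := Poly.all (l := fun R : List (List Entry) => R)
    (p := fun (R : List (List Entry)) (r : List Entry) => decide (r.length = R.length))
    Poly.id (Poly.decide_eq (Poly.length (Poly.snd Poly.id)) (Poly.length (Poly.fst Poly.id)))
  have h2 : Poly (fun R : List (List Entry) => if sqTest R = true then some R else none) :=
    Poly.ite (Poly.decide_bool h1) (Poly.some Poly.id) (Poly.const _)
  refine Poly.of_toT (h2.toT'.congr fun R => ?_)
  unfold mkSq
  split_ifs <;> rfl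

instance : TDec VarMatrix := TDec.of VarMatrix.rows mkSq (fun _ => rfl)
  (fun M => by
    unfold mkSq
    rw [dif_pos ((sqTest_iff _).2 M.square)])
  (fun R M h => by
    unfold mkSq at h
    split_ifs at h with h1
    rw [← Option.some.inj h])
  poly_mkSq

/-- the variable of the entry `(i, l)` of the left factor -/
def uTm (r i l : ℕ) : Tm := Tm.var (3 * (i * r + l) + 1)

/-- the variable of the entry `(l, j)` of the right factor -/
def vTm (r j l : ℕ) : Tm := Tm.var (3 * (j * r + l) + 2)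

/-- the entry of the product -/
def prTm (r i j : ℕ) : Tm := sumTm ((List.range r).map fun l => Tm.mul (uTm r i l) (vTm r j l))

/-- the equation for an entry -/
def enF (t : Tm) : ℚ ⊕ ℕ → Fm
  | Sum.inl q => eqRat t q
  | Sum.inr k => Fm.eq t (Tm.var (3 * k))

/-- the equations for a row -/
def rowF (r : ℕ) (row : List Entry) (i : ℕ) : List Fm :=
  row.zipIdx.map fun q => enF (prTm r i q.2) q.1.toSum

/-- the formula -/
def rkF (r : ℕ) (R : List (List Entry)) : Fm := conj (R.zipIdx.flatMap fun p => rowF r p.1 p.2)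

theorem holds_enF (x : ℕ → ℝ) (t : Tm) (e : Entry) :
    (enF t e.toSum).Holds x ↔ t.eval x = e.eval (fun k => x (3 * k)) := by
  cases e with
  | const q => exact holds_eqRat x t q
  | var k => exact Iff.rfl

theorem eval_prTm (x : ℕ → ℝ) (r i j : ℕ) : (prTm r i j).eval x =
    ∑ l ∈ Finset.range r, x (3 * (i * r + l) + 1) * x (3 * (j * r + l) + 2) := by
  unfold prTm
  rw [eval_sumTm, List.map_map, Finset.sum, Finset.range_val, Multiset.range, Multiset.map_coe,
    Multiset.sum_coe]
  rfl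

/-- Matrices of rank at most `r` are products. -/
theorem exists_factor {n r : ℕ} {A : Matrix (Fin n) (Fin n) ℝ} (h : A.rank ≤ r) :
    ∃ U V : ℕ → ℕ → ℝ, ∀ i j, A i j = ∑ l ∈ Finset.range r, U i.1 l * V j.1 l := by
  set W := LinearMap.range A.mulVecLin with hW
  have hd : Module.finrank ℝ W ≤ r := h
  set d := Module.finrank ℝ W with hd'
  let b : Module.Basis (Fin d) ℝ W := Module.finBasis ℝ W
  have hcol : ∀ j, A.mulVecLin (Pi.single j 1) ∈ W := fun j => LinearMap.mem_range_self _ _
  refine ⟨fun i l => if hl : l < d then (if hi : i < n then (b ⟨l, hl⟩ : Fin n → ℝ) ⟨i, hi⟩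
    else 0) else 0, fun j l => if hl : l < d then (if hj : j < n then
      b.repr ⟨A.mulVecLin (Pi.single ⟨j, hj⟩ 1), hcol _⟩ ⟨l, hl⟩ else 0) else 0, fun i j => ?_⟩
  have h1 : ∑ l ∈ Finset.range r, (if hl : l < d then (if hi : i.1 < n then
      (b ⟨l, hl⟩ : Fin n → ℝ) ⟨i.1, hi⟩ else 0) else 0) * (if hl : l < d then
      (if hj : j.1 < n then b.repr ⟨A.mulVecLin (Pi.single ⟨j.1, hj⟩ 1), hcol _⟩ ⟨l, hl⟩ else 0)
      else 0) = ∑ l ∈ Finset.range d, (if hl : l < d then (b ⟨l, hl⟩ : Fin n → ℝ) i *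
      b.repr ⟨A.mulVecLin (Pi.single j 1), hcol _⟩ ⟨l, hl⟩ else 0) := by
    symm
    refine Finset.sum_subset_zero_on_sdiff (Finset.range_mono hd) ?_ ?_
    · intro l hl
      rw [Finset.mem_sdiff, Finset.mem_range, Finset.mem_range] at hl
      rw [dif_neg hl.2, zero_mul]
    · intro l hl
      rw [Finset.mem_range] at hl
      rw [dif_pos hl, dif_pos hl, dif_pos hl, dif_pos i.2, dif_pos j.2]
  have h2 := congrArg (fun w : W => (w : Fin n → ℝ) i)
    (b.sum_repr ⟨A.mulVecLin (Pi.single j 1), hcol _⟩)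
  have h3 : A.mulVecLin (Pi.single j 1) i = A i j := by simp
  beta_reduce at h2
  change _ = A.mulVecLin (Pi.single j 1) i at h2
  rw [h3] at h2
  beta_reduce
  rw [h1, Finset.sum_range, ← h2, Submodule.coe_sum, Finset.sum_apply]
  refine Finset.sum_congr rfl fun l _ => ?_
  rw [dif_pos l.2]
  simp [mul_comm]

theorem rank_le_of_factor {n r : ℕ} {A : Matrix (Fin n) (Fin n) ℝ} {U V : ℕ → ℕ → ℝ}
    (h : ∀ i j, A i j = ∑ l ∈ Finset.range r, U i.1 l * V j.1 l) : A.rank ≤ r := by
  have e : A = (Matrix.of fun (i : Fin n) (l : Fin r) => U i.1 l.1) *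
      (Matrix.of fun (l : Fin r) (j : Fin n) => V j.1 l.1) := by
    ext i j
    rw [h, Matrix.mul_apply, Finset.sum_range]
    rfl
  rw [e]
  refine (Matrix.rank_mul_le_left _ _).trans ?_
  exact (Matrix.rank_le_width _)

theorem holds_rkF (x : ℕ → ℝ) (r : ℕ) (M : VarMatrix) : (rkF r M.rows).Holds x ↔
    ∀ i j : Fin M.rows.length, M.at (fun k => x (3 * k)) i j =
      ∑ l ∈ Finset.range r, x (3 * (i.1 * r + l) + 1) * x (3 * (j.1 * r + l) + 2) := by
  unfold rkF
  rw [holds_conj]
  constructor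
  · intro h i j
    have hi : (M.rows[i.1], i.1) ∈ M.rows.zipIdx := by
      rw [List.mem_zipIdx_iff_getElem?]
      simp
    have hj' : j.1 < (M.rows[i.1]).length := by
      rw [M.square _ (List.getElem_mem _)]
      exact j.2
    have hj : ((M.rows[i.1])[j.1], j.1) ∈ (M.rows[i.1]).zipIdx := by
      rw [List.mem_zipIdx_iff_getElem?]
      simp
    have := h _ (List.mem_flatMap.2 ⟨_, hi, List.mem_map.2 ⟨_, hj, rfl⟩⟩)
    rw [holds_enF, eval_prTm] at this
    exact this.symm
  · intro h φ hφ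
    rw [List.mem_flatMap] at hφ
    obtain ⟨⟨row, i⟩, hi, hφ⟩ := hφ
    unfold rowF at hφ
    rw [List.mem_map] at hφ
    obtain ⟨⟨e, j⟩, hj, rfl⟩ := hφ
    rw [List.mem_zipIdx_iff_getElem?] at hi hj
    obtain ⟨hi1, hi2⟩ := List.getElem?_eq_some_iff.1 hi
    obtain ⟨hj1, hj2⟩ := List.getElem?_eq_some_iff.1 hj
    dsimp only at hi1 hi2 hj1 hj2 ⊢
    rw [holds_enF, eval_prTm]
    subst hi2
    subst hj2
    have hj3 : j < M.rows.length := by
      rw [M.square _ (List.getElem_mem _)] at hj1
      exact hj1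
    exact (h ⟨i, hi1⟩ ⟨j, hj3⟩).symm

theorem div3 (k : ℕ) : (3 * k) / 3 = k ∧ (3 * k) % 3 = 0 ∧ (3 * k + 1) / 3 = k ∧
    (3 * k + 1) % 3 = 1 ∧ (3 * k + 2) / 3 = k ∧ (3 * k + 2) % 3 = 2 := by omega

theorem rkF_correct (r : ℕ) (M : VarMatrix) : RankLe r M ↔ ETR (rkF r M.rows) := by
  constructor
  · rintro ⟨a, ha⟩
    obtain ⟨U, V, hUV⟩ := exists_factor ha
    refine ⟨fun v => if v % 3 = 0 then a (v / 3) else if v % 3 = 1 then U (v / 3 / r) (v / 3 % r)
      else V (v / 3 / r) (v / 3 % r), ?_⟩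
    rw [holds_rkF]
    intro i j
    have e : (fun k => (fun v => if v % 3 = 0 then a (v / 3) else if v % 3 = 1 then
        U (v / 3 / r) (v / 3 % r) else V (v / 3 / r) (v / 3 % r)) (3 * k)) = a := by
      funext k
      obtain ⟨h1, h2, -⟩ := div3 k
      simp only [h1, h2, if_true]
    rw [e, hUV]
    refine Finset.sum_congr rfl fun l hl => ?_
    rw [Finset.mem_range] at hl
    obtain ⟨-, -, h1, h2, -, -⟩ := div3 (i.1 * r + l)
    obtain ⟨-, -, -, -, h3, h4⟩ := div3 (j.1 * r + l)
    have q1 : ∀ k, (k * r + l) / r = k := by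
      intro k
      rw [mul_comm, Nat.mul_add_div (by omega), Nat.div_eq_of_lt hl]
      rfl
    have q2 : ∀ k, (k * r + l) % r = l := by
      intro k
      rw [mul_comm, Nat.mul_add_mod, Nat.mod_eq_of_lt hl]
    simp only [h1, h2, h3, h4, q1, q2]
    norm_num
  · rintro ⟨x, hx⟩
    rw [holds_rkF] at hx
    exact ⟨fun k => x (3 * k), rank_le_of_factor (U := fun i l => x (3 * (i * r + l) + 1))
      (V := fun j l => x (3 * (j * r + l) + 2)) hx⟩

section

variable {α : Type} [TEnc α]

theorem poly_prTm (r : ℕ) {i j : α → ℕ} (hi : Poly i) (hj : Poly j) :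
    Poly fun a => prTm r (i a) (j a) := by
  unfold prTm
  refine poly_sumTm ?_
  refine Poly.map (F := fun a l => Tm.mul (uTm r (i a) l) (vTm r (j a) l)) (Poly.const _) ?_
  refine poly_tmul ?_ ?_
  · exact poly_tvar (Poly.add (Poly.mul (Poly.const 3) (Poly.add (Poly.mul
      (hi.comp (Poly.fst Poly.id)) (Poly.const r)) (Poly.snd Poly.id))) (Poly.const 1))
  · exact poly_tvar (Poly.add (Poly.mul (Poly.const 3) (Poly.add (Poly.mul
      (hj.comp (Poly.fst Poly.id)) (Poly.const r)) (Poly.snd Poly.id))) (Poly.const 2))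

theorem poly_enF {t : α → Tm} {e : α → Entry} (ht : Poly t) (he : Poly e) :
    Poly fun a => enF (t a) (e a).toSum := by
  have h : Poly fun a => (e a).toSum := he
  refine (Poly.sumCases (o := fun a => (e a).toSum) (g := fun a q => eqRat (t a) q)
    (h := fun a k => Fm.eq (t a) (Tm.var (3 * k))) h ?_ ?_).congr fun a => ?_
  · exact poly_eqRat (ht.comp (Poly.fst Poly.id)) (Poly.snd Poly.id)
  · exact poly_eq (ht.comp (Poly.fst Poly.id)) (poly_tvar (Poly.mul (Poly.const 3)
      (Poly.snd Poly.id)))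
  · cases (e a).toSum <;> rfl

end

theorem poly_rowF {α : Type} [TEnc α] (r : ℕ) {row : α → List Entry} {i : α → ℕ}
    (hrow : Poly row) (hi : Poly i) : Poly fun a => rowF r (row a) (i a) := by
  unfold rowF
  refine Poly.map (F := fun a (q : Entry × ℕ) => enF (prTm r (i a) q.2) q.1.toSum)
    (Poly.zipIdx hrow) ?_
  refine poly_enF (t := fun p : α × (Entry × ℕ) => prTm r (i p.1) p.2.2)
    (e := fun p : α × (Entry × ℕ) => p.2.1) ?_ ?_
  · exact poly_prTm r (hi.comp (Poly.fst Poly.id)) (Poly.snd (Poly.snd Poly.id))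
  · exact Poly.fst (Poly.snd Poly.id)

theorem poly_rkF (r : ℕ) : Poly (rkF r) := by
  unfold rkF
  refine poly_conj ?_
  refine Poly.flatMap (F := fun (_ : List (List Entry)) (p : List Entry × ℕ) => rowF r p.1 p.2)
    (Poly.zipIdx Poly.id) ?_
  exact poly_rowF r (Poly.fst (Poly.snd Poly.id)) (Poly.snd (Poly.snd Poly.id))

theorem poly_rowsFn : Poly (fun M : VarMatrix => M.rows) := Poly.id (α := VarMatrix)

theorem poly_rkFM (r : ℕ) : Poly (fun M : VarMatrix => rkF r M.rows) :=
  Poly.comp (g := rkF r) (poly_rkF r) poly_rowsFn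

theorem mem (r : ℕ) : InER (lang (RankLe r)) :=
  InER.of_poly (φ := fun M : VarMatrix => rkF r M.rows) (poly_rkFM r) fun M => rkF_correct r M

end Pool.Agent.NPC.Q230MR
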